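import Pool.Agent.Lib.MP_7f190d_al.Interfaces

/-!
# MP_7f190d_al, project Burnside, module Q1: the quotient of a group acting on a graph
-/

set_option autoImplicit false

namespace Pool.Agent.Lib.MP_7f190d_al

namespace H32

section

variable {G V : Type} [Group G] [MulAction G V]

/-- The orbit equivalence relation of a subgroup. -/
def orbSet (V : Type) [MulAction G V] (R : Subgroup G) : Setoid V where
  r x y := ∃ g ∈ R, g • y = x
  iseqv :=
    { refl := fun x => ⟨1, R.one_mem, one_smul _ _⟩
      symm := by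
        rintro x y ⟨g, hg, rfl⟩
        exact ⟨g⁻¹, R.inv_mem hg, inv_smul_smul _ _⟩
      trans := by
        rintro x y z ⟨g, hg, rfl⟩ ⟨h, hh, rfl⟩
        exact ⟨g * h, R.mul_mem hg hh, mul_smul _ _ _⟩ }

/-- The action of the quotient group on the set of orbits. -/
@[reducible] def quotAct (V : Type) [MulAction G V] (R : Subgroup G) [hN : R.Normal] :
    MulAction (G ⧸ R) (Quotient (orbSet V R)) where
  smul := Quotient.map₂ (fun (g : G) (x : V) => g • x) (by
    intro g g' hg x x' hx
    obtain ⟨r, hr, rfl⟩ := hx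
    have h1 : g⁻¹ * g' ∈ R := QuotientGroup.leftRel_apply.mp hg
    have h2 : g * (g⁻¹ * g')⁻¹ * g⁻¹ ∈ R := hN.conj_mem _ (R.inv_mem h1) g
    refine ⟨g * r * g⁻¹ * (g * (g⁻¹ * g')⁻¹ * g⁻¹), R.mul_mem (hN.conj_mem _ hr g) h2, ?_⟩
    simp only [smul_smul]
    congr 1
    group)
  one_smul := by
    intro a
    induction a using Quotient.inductionOn with
    | h x => exact congrArg (Quotient.mk (orbSet V R)) (one_smul G x)
  mul_smul := by
    intro g h a
    induction g using Quotient.inductionOn with
    | h g =>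
      induction h using Quotient.inductionOn with
      | h h =>
        induction a using Quotient.inductionOn with
        | h x => exact congrArg (Quotient.mk (orbSet V R)) (mul_smul g h x)

/-- The set of distances between representatives. -/
def dSet (M : GMet V) (R : Subgroup G) (a b : Quotient (orbSet V R)) : Set ℕ :=
  {n | ∃ x y, Quotient.mk (orbSet V R) x = a ∧ Quotient.mk (orbSet V R) y = b ∧ M.d x y = n}

lemma dSet_ne (M : GMet V) (R : Subgroup G) (a b : Quotient (orbSet V R)) :
    (dSet M R a b).Nonempty := by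
  induction a using Quotient.inductionOn with
  | h x =>
    induction b using Quotient.inductionOn with
    | h y => exact ⟨M.d x y, x, y, rfl, rfl, rfl⟩

/-- The distance in the quotient. -/
noncomputable def qd (M : GMet V) (R : Subgroup G) (a b : Quotient (orbSet V R)) : ℕ :=
  sInf (dSet M R a b)

lemma qd_spec (M : GMet V) (R : Subgroup G) (a b : Quotient (orbSet V R)) :
    ∃ x y, Quotient.mk (orbSet V R) x = a ∧ Quotient.mk (orbSet V R) y = b ∧
      M.d x y = qd M R a b :=
  Nat.sInf_mem (dSet_ne M R a b)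

lemma qd_le (M : GMet V) (R : Subgroup G) (x y : V) :
    qd M R (Quotient.mk (orbSet V R) x) (Quotient.mk (orbSet V R) y) ≤ M.d x y :=
  Nat.sInf_le ⟨x, y, rfl, rfl, rfl⟩

lemma mk_eq (R : Subgroup G) {x y : V}
    (h : Quotient.mk (orbSet V R) x = Quotient.mk (orbSet V R) y) : ∃ g ∈ R, g • y = x :=
  Quotient.exact h

lemma mk_smul (R : Subgroup G) {g : G} (hg : g ∈ R) (x : V) :
    Quotient.mk (orbSet V R) (g • x) = Quotient.mk (orbSet V R) x :=
  Quotient.sound ⟨g, hg, rfl⟩

lemma qd_tri (M : GMet V) (R : Subgroup G) (hI : Iso G M) (a b c : Quotient (orbSet V R)) :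
    qd M R a c ≤ qd M R a b + qd M R b c := by
  obtain ⟨x, y, rfl, rfl, h1⟩ := qd_spec M R a b
  obtain ⟨y', z, hy', rfl, h2⟩ := qd_spec M R (Quotient.mk (orbSet V R) y) c
  obtain ⟨r, hr, rfl⟩ := mk_eq R hy'
  have h3 : M.d (r • y) z = M.d y (r⁻¹ • z) := by
    rw [← hI r⁻¹ (r • y) z, inv_smul_smul]
  have h4 := qd_le M R x (r⁻¹ • z)
  rw [mk_smul R (R.inv_mem hr)] at h4
  have h5 := M.tri x y (r⁻¹ • z)
  omega

/-- The metric of the quotient. -/
noncomputable def qMet (M : GMet V) (R : Subgroup G) (hI : Iso G M) :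
    GMet (Quotient (orbSet V R)) where
  d := qd M R
  self := by
    intro a
    induction a using Quotient.inductionOn with
    | h x =>
      have := qd_le M R x x
      rw [M.self] at this
      omega
  eq0 := by
    intro a b h
    obtain ⟨x, y, rfl, rfl, h1⟩ := qd_spec M R a b
    rw [h] at h1
    rw [M.eq0 x y h1]
  symm := by
    intro a b
    apply le_antisymm
    · obtain ⟨x, y, hx, hy, h1⟩ := qd_spec M R b a
      rw [← h1, M.symm x y, ← hx, ← hy]
      exact qd_le M R y x
    · obtain ⟨x, y, hx, hy, h1⟩ := qd_spec M R a b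
      rw [← h1, M.symm x y, ← hx, ← hy]
      exact qd_le M R y x
  tri := qd_tri M R hI
  geod := by
    intro a b k hk
    obtain ⟨x, y, hx, hy, h1⟩ := qd_spec M R a b
    rw [← h1] at hk
    obtain ⟨z, hz1, hz2⟩ := M.geod x y k hk
    refine ⟨Quotient.mk (orbSet V R) z, ?_⟩
    have h2 := qd_le M R x z
    have h3 := qd_le M R z y
    have h4 := qd_tri M R hI a (Quotient.mk (orbSet V R) z) b
    rw [hx] at h2
    rw [hy] at h3
    constructor <;> omega

end

end H32

open H32 in
/-- Q1: the quotient exists. -/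
theorem q1 : Q1Statement := by
  intro G V _ _ M R hI hN
  have := hN
  refine ⟨G ⧸ R, Quotient (orbSet V R), inferInstance, quotAct V R, qMet M R hI,
    QuotientGroup.mk' R, Quotient.mk (orbSet V R), ?_⟩
  let _ := quotAct V R
  refine
    { surj := QuotientGroup.mk'_surjective R
      ker := ?_
      psurj := Quotient.mk_surjective
      eqv := ?_
      dle := qd_le M R
      dex := ?_ }
  · intro g
    exact QuotientGroup.eq_one_iff g
  · intro g x
    rfl
  · intro x y
    obtain ⟨x', y', hx, hy, h1⟩ :=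
      qd_spec M R (Quotient.mk (orbSet V R) x) (Quotient.mk (orbSet V R) y)
    obtain ⟨r, hr, rfl⟩ := mk_eq R hx
    obtain ⟨s, hs, rfl⟩ := mk_eq R hy
    refine ⟨r⁻¹ * s, R.mul_mem (R.inv_mem hr) hs, ?_⟩
    have h2 : M.d (r • x) (s • y) = M.d x ((r⁻¹ * s) • y) := by
      rw [← hI r⁻¹ (r • x) (s • y), inv_smul_smul, mul_smul]
    rw [← h2]
    exact h1

end Pool.Agent.Lib.MP_7f190d_al
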