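import Pool.Agent.Lib.MP_7f190d_al.Interfaces

/-!
# MP_7f190d_al, project Burnside, modules Q2 and Q3: the quotient by the rotations
-/

set_option autoImplicit false

namespace Pool.Agent.Lib.MP_7f190d_al

namespace H32

section

variable {G V J : Type} [Group G] [MulAction G V] [MulAction G J] {M : GMet V}
  {apex : J → V} {rot : J → G} {ang : J → V → V → ℕ} {l θ : ℕ}

lemma rot_mem (rot : J → G) (j : J) (k : ℤ) : rot j ^ k ∈ RotSub rot :=
  Subgroup.zpow_mem _ (Subgroup.subset_closure (Set.mem_range_self j)) k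

lemma nonapex (h : RotSys G V J M apex rot ang l θ) {x : V} (hx : ∀ j, x ≠ apex j) (g : G)
    (j : J) : g • x ≠ apex j := by
  intro he
  apply hx (g⁻¹ • j)
  rw [← h.eqv, ← he, inv_smul_smul]

lemma zpow_fix {G A : Type} [Group G] [MulAction G A] (g : G) (a : A) (h : g • a = a) (k : ℤ) :
    g ^ k • a = a := by
  have h1 : g ∈ MulAction.stabilizer G a := h
  exact Subgroup.zpow_mem _ h1 k

lemma rot_apex (h : RotSys G V J M apex rot ang l θ) (j : J) (k : ℤ) :
    rot j ^ k • apex j = apex j := by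
  rw [h.eqv, zpow_fix _ _ (h.rot_fix j)]

lemma d_rot (h : RotSys G V J M apex rot ang l θ) (j : J) (k : ℤ) (w : V) :
    M.d (apex j) (rot j ^ k • w) = M.d (apex j) w := by
  have h1 := h.iso (rot j ^ k) (apex j) w
  rwa [rot_apex h] at h1

/-- turning the second point does not increase the distance -/
lemma turn (h : RotSys G V J M apex rot ang l θ) (j : J) (k : ℤ) (u w : V)
    (hd : u = apex j ∨ w = apex j ∨ (u ≠ apex j ∧ w ≠ apex j ∧ θ < ang j u w)) :
    M.d u (rot j ^ k • w) ≤ M.d u w := by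
  rcases hd with rfl | rfl | ⟨hu, hw, ha⟩
  · exact (d_rot h j k w).le
  · rw [rot_apex h]
  · have h1 := (h.ang_sep j u w hu hw ha).1
    unfold GMet.Btw at h1
    have h2 := M.tri u (apex j) (rot j ^ k • w)
    rw [d_rot h] at h2
    omega

/-- one of four steps can be turned -/
lemma four (h : RotSys G V J M apex rot ang l θ) (j : J) (x0 x1 x2 x3 x4 : V)
    (hx0 : x0 ≠ apex j) (hx4 : x4 ≠ apex j) (ha : l ≤ 2 * ang j x0 x4) :
    ∀ P : V → V → Prop,
      (∀ u w, (u = apex j ∨ w = apex j ∨ (u ≠ apex j ∧ w ≠ apex j ∧ θ < ang j u w)) → P u w) →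
      P x0 x1 ∨ P x1 x2 ∨ P x2 x3 ∨ P x3 x4 := by
  intro P hP
  by_contra hne
  push Not at hne
  obtain ⟨n0, n1, n2, n3⟩ := hne
  have a0 := fun hc => n0 (hP _ _ hc)
  have a1 := fun hc => n1 (hP _ _ hc)
  have a2 := fun hc => n2 (hP _ _ hc)
  have a3 := fun hc => n3 (hP _ _ hc)
  have hx1 : x1 ≠ apex j := fun hc => a1 (Or.inl hc)
  have hx2 : x2 ≠ apex j := fun hc => a2 (Or.inl hc)
  have hx3 : x3 ≠ apex j := fun hc => a3 (Or.inl hc)
  have b0 : ang j x0 x1 ≤ θ := by
    by_contra hc; exact a0 (Or.inr (Or.inr ⟨hx0, hx1, not_le.mp hc⟩))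
  have b1 : ang j x1 x2 ≤ θ := by
    by_contra hc; exact a1 (Or.inr (Or.inr ⟨hx1, hx2, not_le.mp hc⟩))
  have b2 : ang j x2 x3 ≤ θ := by
    by_contra hc; exact a2 (Or.inr (Or.inr ⟨hx2, hx3, not_le.mp hc⟩))
  have b3 : ang j x3 x4 ≤ θ := by
    by_contra hc; exact a3 (Or.inr (Or.inr ⟨hx3, hx4, not_le.mp hc⟩))
  have c0 := h.ang_tri j x0 x1 x4 hx0 hx1 hx4
  have c1 := h.ang_tri j x1 x2 x4 hx1 hx2 hx4
  have c2 := h.ang_tri j x2 x3 x4 hx2 hx3 hx4
  have c3 := h.big
  omega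

variable {G' V' : Type} [Group G'] [MulAction G' V'] {M' : GMet V'} {π : G →* G'} {p : V → V'}

lemma p_smul (hq : QuotData M M' (RotSub rot) π p) {g : G} (hg : g ∈ RotSub rot) (x : V) :
    p (g • x) = p x := by
  rw [hq.eqv, (hq.ker g).mpr hg, one_smul]

/-- The closed lift of a quadrilateral. -/
lemma closed (h : RotSys G V J M apex rot ang l θ) (hr : RotRed apex rot ang l)
    (hq : QuotData M M' (RotSub rot) π p) (x0 : V) (hx0 : ∀ j, x0 ≠ apex j) (b c e : V') :
    ∃ x1 x2 x3, p x1 = b ∧ p x2 = c ∧ p x3 = e ∧ M.d x0 x1 = M'.d (p x0) b ∧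
      M.d x1 x2 = M'.d b c ∧ M.d x2 x3 = M'.d c e ∧ M.d x3 x0 = M'.d e (p x0) := by
  obtain ⟨rk, hrk⟩ := hr x0 hx0
  have key : ∀ n : ℕ, ∀ g ∈ RotSub rot, rk g = n → ∀ x1 x2 x3, p x1 = b → p x2 = c →
      p x3 = e → M.d x0 x1 = M'.d (p x0) b → M.d x1 x2 = M'.d b c → M.d x2 x3 = M'.d c e →
      M.d x3 (g • x0) = M'.d e (p x0) →
      ∃ x1 x2 x3, p x1 = b ∧ p x2 = c ∧ p x3 = e ∧ M.d x0 x1 = M'.d (p x0) b ∧
      M.d x1 x2 = M'.d b c ∧ M.d x2 x3 = M'.d c e ∧ M.d x3 x0 = M'.d e (p x0) := by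
    intro n
    induction n using Nat.strong_induction_on with
    | _ n ih =>
      intro g hg hn x1 x2 x3 p1 p2 p3 e0 e1 e2 e3
      by_cases hg1 : g = 1
      · subst hg1
        rw [one_smul] at e3
        exact ⟨x1, x2, x3, p1, p2, p3, e0, e1, e2, e3⟩
      obtain ⟨j, k, ha, hlt⟩ := hrk g hg hg1
      have hm : rot j ^ k ∈ RotSub rot := rot_mem rot j k
      have hiso := h.iso (rot j ^ k)
      have hps : ∀ x, p (rot j ^ k • x) = p x := p_smul hq hm
      have hm' : rot j ^ k * g ∈ RotSub rot := Subgroup.mul_mem _ hm hg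
      have hg' : p (g • x0) = p x0 := p_smul hq hg x0
      have hmin : ∀ u w, M.d u (rot j ^ k • w) ≤ M.d u w → M.d u w = M'.d (p u) (p w) →
          M.d u (rot j ^ k • w) = M'.d (p u) (p w) := by
        intro u w h1 h2
        have h3 := hq.dle u (rot j ^ k • w)
        rw [hps] at h3
        omega
      rcases four h j x0 x1 x2 x3 (g • x0) (hx0 j) (nonapex h hx0 g j) ha
        (fun u w => M.d u (rot j ^ k • w) ≤ M.d u w) (fun u w => turn h j k u w) with
        t | t | t | t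
      · refine ih _ (hn ▸ hlt) (rot j ^ k * g) hm' rfl (rot j ^ k • x1) (rot j ^ k • x2)
          (rot j ^ k • x3) ?_ ?_ ?_ ?_ ?_ ?_ ?_
        · rw [hps, p1]
        · rw [hps, p2]
        · rw [hps, p3]
        · rw [← p1] at e0 ⊢
          exact hmin _ _ t e0
        · rw [hiso, e1]
        · rw [hiso, e2]
        · rw [mul_smul, hiso, e3]
      · refine ih _ (hn ▸ hlt) (rot j ^ k * g) hm' rfl x1 (rot j ^ k • x2)
          (rot j ^ k • x3) p1 ?_ ?_ e0 ?_ ?_ ?_
        · rw [hps, p2]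
        · rw [hps, p3]
        · rw [← p1, ← p2] at e1 ⊢
          exact hmin _ _ t e1
        · rw [hiso, e2]
        · rw [mul_smul, hiso, e3]
      · refine ih _ (hn ▸ hlt) (rot j ^ k * g) hm' rfl x1 x2
          (rot j ^ k • x3) p1 p2 ?_ e0 e1 ?_ ?_
        · rw [hps, p3]
        · rw [← p2, ← p3] at e2 ⊢
          exact hmin _ _ t e2
        · rw [mul_smul, hiso, e3]
      · refine ih _ (hn ▸ hlt) (rot j ^ k * g) hm' rfl x1 x2 x3 p1 p2 p3 e0 e1 e2 ?_
        rw [mul_smul]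
        have h5 : M.d x3 (g • x0) = M'.d (p x3) (p (g • x0)) := by rw [hg', p3, e3]
        have h6 := hmin _ _ t h5
        rw [h6, hg', p3]
  obtain ⟨y1, rfl⟩ := hq.psurj b
  obtain ⟨y2, rfl⟩ := hq.psurj c
  obtain ⟨y3, rfl⟩ := hq.psurj e
  obtain ⟨r1, hr1, e0⟩ := hq.dex x0 y1
  obtain ⟨r2, hr2, e1⟩ := hq.dex (r1 • y1) y2
  obtain ⟨r3, hr3, e2⟩ := hq.dex (r2 • y2) y3
  obtain ⟨g, hg, e3⟩ := hq.dex (r3 • y3) x0
  rw [p_smul hq hr1] at e1
  rw [p_smul hq hr2] at e2
  rw [p_smul hq hr3] at e3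
  exact key _ g hg rfl (r1 • y1) (r2 • y2) (r3 • y3) (p_smul hq hr1 _) (p_smul hq hr2 _)
    (p_smul hq hr3 _) e0 e1 e2 e3

end

end H32

open H32 in
/-- Q2: the quotient by the rotations is hyperbolic. -/
theorem q2 : Q2Statement := by
  intro G V J _ _ _ M apex rot ang l θ h hr hnb G' V' _ _ M' π p δ hq hyp
  have key : ∀ x0, (∀ j, x0 ≠ apex j) → ∀ b c e : V', M'.d (p x0) c + M'.d b e ≤
      max (M'.d (p x0) b + M'.d c e) (M'.d (p x0) e + M'.d b c) + 2 * δ := by
    intro x0 hx0 b c e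
    obtain ⟨x1, x2, x3, rfl, rfl, rfl, e0, e1, e2, e3⟩ := closed h hr hq x0 hx0 b c e
    have h1 := hyp x0 x1 x2 x3
    have h2 := hq.dle x0 x2
    have h3 := hq.dle x1 x3
    rw [M.symm x3 x0, M'.symm (p x3) (p x0)] at e3
    rw [e0, e1, e2, e3] at h1
    omega
  intro x y z t
  obtain ⟨x', rfl⟩ := hq.psurj x
  by_cases hx : ∀ j, x' ≠ apex j
  · have := key x' hx y z t
    omega
  · push Not at hx
    obtain ⟨j, rfl⟩ := hx
    obtain ⟨x0, hx0, hd⟩ := hnb j
    have h1 := key x0 hx0 y z t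
    have h2 := hq.dle (apex j) x0
    rw [hd] at h2
    have h3 := M'.tri (p (apex j)) (p x0) z
    have h4 := M'.tri (p x0) (p (apex j)) y
    have h5 := M'.tri (p x0) (p (apex j)) t
    rw [M'.symm (p x0) (p (apex j))] at h4 h5
    omega

open H32 in
/-- Q3: elements of the rotation subgroup move points far, and stabilizers of apexes. -/
theorem q3 : Q3Statement := by
  intro G V J _ _ _ M apex rot ang l θ h hr
  have hbig := h.big
  have hsep : ∀ x, (∀ j, x ≠ apex j) → ∀ (r : G) (j : J), l ≤ 2 * ang j x (r • x) →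
      M.d x (apex j) + M.d x (apex (r⁻¹ • j)) = M.d x (r • x) := by
    intro x hx r j ha
    have h1 := (h.ang_sep j x (r • x) (hx j) (nonapex h hx r j) (by omega)).1
    unfold GMet.Btw at h1
    have h2 := h.iso r⁻¹ (apex j) (r • x)
    rw [inv_smul_smul, h.eqv] at h2
    rw [← h1, ← h2, M.symm x (apex (r⁻¹ • j))]
  constructor
  · intro r hrm hr1 x hx κ hκ
    obtain ⟨rk, hrk⟩ := hr x hx
    obtain ⟨j, k, ha, -⟩ := hrk r hrm hr1
    have h1 := hsep x hx r j ha
    have h2 := hκ j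
    have h3 := hκ (r⁻¹ • j)
    omega
  · intro hnb r hrm j hj
    obtain ⟨x, hx, hd1, hd2⟩ := hnb j
    obtain ⟨rk, hrk⟩ := hr x hx
    have key : ∀ n : ℕ, ∀ g ∈ RotSub rot, rk g = n → g • j = j → ∃ k : ℤ, g = rot j ^ k := by
      intro n
      induction n using Nat.strong_induction_on with
      | _ n ih =>
        intro g hg hn hgj
        by_cases hg1 : g = 1
        · exact ⟨0, by rw [hg1, zpow_zero]⟩
        obtain ⟨i, k, ha, hlt⟩ := hrk g hg hg1
        have h1 := hsep x hx g i ha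
        have h2 : M.d x (g • x) ≤ 2 := by
          have h3 := M.tri x (apex j) (g • x)
          have h4 := h.iso g (apex j) x
          rw [h.eqv, hgj] at h4
          rw [h4, M.symm x (apex j)] at h3
          omega
        have hij : i = j := by
          by_contra hne
          have h3 := hd2 i hne
          have h4 : g⁻¹ • i ≠ j := by
            intro hc
            apply hne
            rw [← hgj, ← hc, smul_inv_smul]
          have h5 := hd2 _ h4
          omega
        subst hij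
        obtain ⟨m, hm⟩ := ih _ (hn ▸ hlt) (rot i ^ k * g)
          (Subgroup.mul_mem _ (rot_mem rot i k) hg) rfl
          (by rw [mul_smul, hgj, zpow_fix _ _ (h.rot_fix i)])
        refine ⟨-k + m, ?_⟩
        rw [zpow_add, ← hm, zpow_neg, inv_mul_cancel_left]
    exact key _ r hrm rfl hj

end Pool.Agent.Lib.MP_7f190d_al
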